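import Pool.Agent.Run7.h219.SL.Final2
import Pool.Agent.Run7.h219.SL.Pub

/-!
One time slice counts the singular points of a Navier-Stokes flow.

Let `(u, p)` be a smooth periodic solution of the Navier-Stokes equations on `[0, T)` and let `r` be
small. The number of `r`-separated singular points at the time `T` is bounded by the kinetic energy,
at the single time `T - r² / ν`, of the fluid which is faster than the viscous speed `c ν / r`:
`card S * ν² r ≤ C ∫_{|u| > c ν / r} |u|²`.

Consequences, in terms of the weak `L^q` norm `M` of the slice: `card S ≤ K(q) (M / ν)^q r^(q - 3)`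
(Leray's lower bounds with the number of singular points); if `M` is bounded along a sequence of
times tending to `T`, then the singular set has finite Hausdorff measure of dimension `3 - q`, and for
`q = 3` there are at most `K(3) (M / ν)³` singular points.
-/

set_option autoImplicit false

open MeasureTheory Set Filter Topology
open H459R3.NS Run7.h219.Pub

namespace Pool.Agent.Results.MP_6bf1e5_an.OneSliceCount

theorem result : ∃ (C c : ℝ) (K : ℝ → ℝ), 0 < C ∧ 0 < c ∧ (∀ q : ℝ, 2 < q → 0 < K q) ∧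
    ∀ (ν T : ℝ) (u : ℝ → V → V) (p : ℝ → V → ℝ), 0 < ν → 0 < T → IsSol ν T u p →
      (∀ r : ℝ, 0 < r → r ^ 2 ≤ ν * T → C * (1 + energy (u (T - r ^ 2 / ν)) / ν ^ 2) * r ≤ 1 →
        ∀ S : Finset V, (∀ x ∈ S, x ∈ cube ∧ Sing T u x) →
          (∀ x ∈ S, ∀ y ∈ S, x ≠ y → r ≤ ‖x - y‖) →
            S.card * (ν ^ 2 * r) ≤ C * ∫ x in fast (c * ν / r) (u (T - r ^ 2 / ν)),
              nsq (u (T - r ^ 2 / ν)) x ∧
            ∀ q M : ℝ, 2 < q → 0 ≤ M → Weak q M (u (T - r ^ 2 / ν)) →
              (S.card : ℝ) ≤ K q * (M / ν) ^ q * r ^ (q - 3)) ∧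
      (∀ q M : ℝ, 2 < q → q ≤ 3 → 0 ≤ M → (∃ᶠ t in 𝓝[<] T, Weak q M (u t)) →
        Measure.hausdorffMeasure (3 - q) {x ∈ cube | Sing T u x}
          ≤ ENNReal.ofReal (K q * (M / ν) ^ q)) ∧
      ∀ M : ℝ, 0 ≤ M → (∃ᶠ t in 𝓝[<] T, Weak 3 M (u t)) →
        {x ∈ cube | Sing T u x}.Finite ∧
          ({x ∈ cube | Sing T u x}.ncard : ℝ) ≤ K 3 * (M / ν) ^ 3 :=
  Run7.h219.SL.final

end Pool.Agent.Results.MP_6bf1e5_an.OneSliceCount
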